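import Pool.Agent.H190R3.WeiCard

/-!
# The set-cofinality of the Weihrauch degrees is `2 ^ 𝔠`

For `A ⊆ ω^ω` let `f_A` be the characteristic function of `A` (as a single-valued problem). If a
pair of machines reduces `f_A` to `g`, then it determines `A`; so below every problem there are at
most countably many `f_A`. Hence every cofinal set of degrees has size `2 ^ 𝔠`.

Problems, Weihrauch reducibility and the Weihrauch degrees are defined in
`Pool/Agent/H190R3/WeiRed.lean`, `WeiCard.lean`, partial computable functionals (`IsMachine`,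
`Maps`) in `Pool/Agent/H190R3/WeiWords.lean`.
-/

set_option autoImplicit false

namespace Pool.Agent.Results.MP_62990a_lc.SetCofinality

open Cardinal Pool.Agent.H190R3.Wei

/-- A set `S` of Weihrauch degrees is cofinal if every degree lies below some element of `S`. -/
def IsCofinalSet (S : Set Degree) : Prop := ∀ d : Degree, ∃ s ∈ S, d ≤ s

/-- The set-cofinality of the Weihrauch degrees: the least cardinality of a cofinal subset. -/
noncomputable def setcof : Cardinal.{0} := sInf {κ | ∃ S : Set Degree, IsCofinalSet S ∧ #S = κ}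

open Classical in
/-- The characteristic function of `A`, as a problem. -/
noncomputable def chi (A : Set (ℕ → ℕ)) : Problem where
  sol x := {fun _ => if x ∈ A then 1 else 0}

theorem chi_determined {A B : Set (ℕ → ℕ)} {g : Problem} {φ ψ : List ℕ → List ℕ}
    (hA : Red φ ψ (chi A) g) (hB : Red φ ψ (chi B) g) : A = B := by
  ext x
  obtain ⟨y, hy, ⟨z, hz⟩, h⟩ := hA x ⟨_, rfl⟩
  obtain ⟨y', hy', -, h'⟩ := hB x ⟨_, rfl⟩
  obtain rfl := Maps.unique hy hy'
  obtain ⟨w, rfl, hw⟩ := h z hz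
  obtain ⟨w', rfl, hw'⟩ := h' z hz
  have h1 := congrFun (Maps.unique hw hw') 0
  by_cases hxA : x ∈ A <;> by_cases hxB : x ∈ B <;> simp [hxA, hxB] at h1 ⊢

theorem cofinal_card {S : Set Degree} (hS : IsCofinalSet S) : 2 ^ 𝔠 ≤ #S := by
  have hex : ∀ A : Set (ℕ → ℕ), ∃ t : S × ({φ : List ℕ → List ℕ // IsMachine φ} ×
      {φ : List ℕ → List ℕ // IsMachine φ}),
      Red t.2.1.1 t.2.2.1 (chi A) (ofAntisymmetrization (· ≤ ·) (t.1 : Degree)) := by
    intro A
    obtain ⟨s, hs, hle⟩ := hS (toAntisymmetrization (· ≤ ·) (chi A))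
    have h1 : chi A ≤ ofAntisymmetrization (· ≤ ·) s := by
      rw [← toAntisymmetrization_le_toAntisymmetrization_iff, toAntisymmetrization_ofAntisymmetrization]
      exact hle
    obtain ⟨φ, ψ, hφ, hψ, hr⟩ := h1
    exact ⟨(⟨s, hs⟩, (⟨φ, hφ⟩, ⟨ψ, hψ⟩)), hr⟩
  choose t ht using hex
  have hinj : Function.Injective t := by
    intro A B hAB
    have h1 := ht A
    rw [hAB] at h1
    exact chi_determined h1 (ht B)
  have h2 := Cardinal.mk_le_of_injective hinj
  have h3 : #(Set (ℕ → ℕ)) = 2 ^ 𝔠 := by rw [Cardinal.mk_set, mk_baire]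
  have h4 : #({φ : List ℕ → List ℕ // IsMachine φ} × {φ : List ℕ → List ℕ // IsMachine φ}) ≤ ℵ₀ :=
    Cardinal.mk_le_aleph0
  have h5 : ℵ₀ < 2 ^ 𝔠 := Cardinal.aleph0_lt_continuum.trans (Cardinal.cantor _)
  rw [h3, Cardinal.mk_prod, Cardinal.lift_id, Cardinal.lift_id] at h2
  by_contra hlt
  rw [not_le] at hlt
  have h6 : #S * #({φ : List ℕ → List ℕ // IsMachine φ} × {φ : List ℕ → List ℕ // IsMachine φ})
      < 2 ^ 𝔠 := Cardinal.mul_lt_of_lt h5.le hlt (h4.trans_lt h5)
  exact absurd (h2.trans_lt h6) (lt_irrefl _)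

theorem degree_card : #Degree ≤ 2 ^ 𝔠 := by
  have h1 : #Degree ≤ #Problem := Cardinal.mk_le_of_surjective (f := toAntisymmetrization (· ≤ ·))
    Quotient.mk_surjective
  have h2 : #Problem ≤ #((ℕ → ℕ) → Set (ℕ → ℕ)) :=
    Cardinal.mk_le_of_injective (f := Problem.sol) (fun a b h => Problem.ext h)
  have h3 : #((ℕ → ℕ) → Set (ℕ → ℕ)) = 2 ^ 𝔠 := by
    rw [← Cardinal.power_def, Cardinal.mk_set, mk_baire, ← Cardinal.power_mul,
      Cardinal.continuum_mul_self]
  exact h1.trans (h2.trans h3.le)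

/-- Every cofinal set of Weihrauch degrees has cardinality `2 ^ 𝔠`, and the set-cofinality of the
Weihrauch degrees is `2 ^ 𝔠`. -/
theorem result : (∀ S : Set Degree, IsCofinalSet S → #S = 2 ^ 𝔠) ∧ setcof = 2 ^ 𝔠 := by
  have h1 : ∀ S : Set Degree, IsCofinalSet S → #S = 2 ^ 𝔠 := fun S hS =>
    le_antisymm ((Cardinal.mk_set_le S).trans degree_card) (cofinal_card hS)
  refine ⟨h1, ?_⟩
  have h2 : {κ | ∃ S : Set Degree, IsCofinalSet S ∧ #S = κ} = {2 ^ 𝔠} := by
    ext κ
    constructor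
    · rintro ⟨S, hS, rfl⟩
      exact h1 S hS
    · rintro rfl
      exact ⟨Set.univ, fun d => ⟨d, Set.mem_univ d, le_rfl⟩,
        h1 _ fun d => ⟨d, Set.mem_univ d, le_rfl⟩⟩
  rw [setcof, h2, csInf_singleton]

end Pool.Agent.Results.MP_62990a_lc.SetCofinality
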